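import Pool.Agent.Q17.Inconj.Main

/-!
# Prime divisors versus the inconjugate intersection number

The inequality `|π(G)| ≤ iota-hat(G)` fails for solvable groups, in the strongest way that the
known case `iota-hat(G) ≤ 2` leaves open: already the solvable groups with `iota-hat(G) ≤ 3` have
orders divisible by arbitrarily many primes.

The group is `G = (F_q × F_q) ⋊ F_q^×` (scalars acting on the plane), with `q` a prime such that
`q - 1` has many prime divisors.  Its maximal subgroups given by the line `x = 0`, by the line
`y = 0` and by a translate of the line `x + y = 0` (conjugate of the subgroup of this line under a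
translation not in the line) are pairwise inconjugate and intersect trivially.
-/

namespace Pool.Agent.Results.MP_c68965_al

/-- `H` and `K` are conjugate subgroups of `G`: `g H g⁻¹ = K` for some `g`. -/
def AreConjugate {G : Type} [Group G] (H K : Subgroup G) : Prop :=
  ∃ g : G, H.map (MulAut.conj g).toMonoidHom = K

/-- There are `k` maximal subgroups of `G`, pairwise inconjugate in `G`, whose intersection is the
Frattini subgroup of `G`. -/
def HasInconjugateFamily (G : Type) [Group G] (k : ℕ) : Prop :=
  ∃ M : Fin k → Subgroup G, (∀ i, IsCoatom (M i)) ∧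
    (∀ i j, i ≠ j → ¬ AreConjugate (M i) (M j)) ∧ ⨅ i, M i = frattini G

/-- The inconjugate intersection number of `G`: the least `k ≥ 1` such that `k` pairwise
inconjugate maximal subgroups intersect in the Frattini subgroup, and `∞` if there is none. -/
noncomputable def inconjugateIntersectionNumber (G : Type) [Group G] : ℕ∞ :=
  sInf {x : ℕ∞ | ∃ k : ℕ, 1 ≤ k ∧ HasInconjugateFamily G k ∧ (k : ℕ∞) = x}

/-- For every `N` there is a nontrivial finite solvable group `G` with inconjugate intersection
number at most `3` whose order has at least `N` distinct prime divisors.  In particular it is false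
that the number of prime divisors of the order of every nontrivial finite solvable group is at most
its inconjugate intersection number. -/
theorem InconjugateThree.result :
    (∀ N : ℕ, ∃ (G : Type) (_ : Group G), Finite G ∧ Nontrivial G ∧ Group.IsSolvable G ∧
      inconjugateIntersectionNumber G ≤ 3 ∧ N ≤ (Nat.card G).primeFactors.card) ∧
    ¬ (∀ (G : Type) (_ : Group G), Finite G → Nontrivial G → Group.IsSolvable G →
      ((Nat.card G).primeFactors.card : ℕ∞) ≤ inconjugateIntersectionNumber G) := by
  have key : ∀ N : ℕ, ∃ (G : Type) (_ : Group G), Finite G ∧ Nontrivial G ∧ Group.IsSolvable G ∧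
      inconjugateIntersectionNumber G ≤ 3 ∧ N ≤ (Nat.card G).primeFactors.card := by
    intro N
    obtain ⟨q, hq, hN⟩ := Q17.Inconj.exists_many N
    have : Fact q.Prime := ⟨hq⟩
    refine ⟨Q17.Inconj.AG (ZMod q), inferInstance, inferInstance, ?_, inferInstance, ?_, ?_⟩
    · refine ⟨⟨1, ⟨(1, 0), 1⟩, ?_⟩⟩
      intro h
      have := congrArg (fun a : Q17.Inconj.AG (ZMod q) => a.v.1) h
      simp at this
    · apply sInf_le
      refine ⟨3, by norm_num, ⟨Q17.Inconj.fam, Q17.Inconj.fam_coatom, ?_,
        Q17.Inconj.iInf_fam_eq_frattini⟩, rfl⟩
      rintro i j hij ⟨g, hg⟩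
      exact Q17.Inconj.fam_not_conj i j hij g hg
    · exact hN.trans (Finset.card_le_card (Q17.Inconj.primes_AG q))
  refine ⟨key, ?_⟩
  intro hall
  obtain ⟨G, hG, hfin, hnt, hsol, h3, h4⟩ := key 4
  have h := (hall G hG hfin hnt hsol).trans h3
  have h' : (4 : ℕ∞) ≤ 3 := le_trans (by exact_mod_cast h4) h
  exact absurd h' (by decide)

end Pool.Agent.Results.MP_c68965_al
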